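import Pool.Agent.helper45.TF.Defs2

/-!
Module GT: the simplicial approximation of the boundary of a small singular 2-simplex.
-/

namespace Pool.Agent.helper45.TF

open Set Topology

theorem GT_two {V : Type} (x : Sym2 V →₀ ZMod 2) : x + x = 0 := by
  ext e
  simp [CharTwo.add_self_eq_zero]

theorem GT_edge_comm {V : Type} [DecidableEq V] (u v : V) : edgeC u v = edgeC v u := by
  unfold edgeC
  by_cases h : u = v
  · subst h; rfl
  · rw [if_neg h, if_neg (Ne.symm h), Sym2.eq_swap]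

theorem GT_edge_self {V : Type} [DecidableEq V] (u : V) : edgeC u u = 0 := by
  simp [edgeC]

theorem GT_eps {V : Type} [DecidableEq V] (u v w : V) (huv : u ≠ v) (huw : u ≠ w)
    (hvw : v ≠ w) : epsC ({u, v, w} : Finset V) = edgeC u v + edgeC u w + edgeC v w := by
  have h : (({u, v, w} : Finset V).sym2.filter (fun e => ¬ e.IsDiag))
      = {s(u, v), s(u, w), s(v, w)} := by
    ext e
    induction e with
    | h x y =>
      simp only [Finset.mem_filter, Finset.mk_mem_sym2_iff, Finset.mem_insert,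
        Finset.mem_singleton, Sym2.isDiag_iff_proj_eq, Sym2.eq_iff]
      constructor
      · rintro ⟨⟨hx, hy⟩, hne⟩
        rcases hx with rfl | rfl | rfl <;> rcases hy with rfl | rfl | rfl <;> simp_all
      · rintro ((⟨rfl, rfl⟩ | ⟨rfl, rfl⟩) | (⟨rfl, rfl⟩ | ⟨rfl, rfl⟩) | (⟨rfl, rfl⟩ | ⟨rfl, rfl⟩)) <;>
          simp [huv, huw, hvw, huv.symm, huw.symm, hvw.symm]
  unfold epsC
  rw [h]
  rw [Finset.sum_insert, Finset.sum_insert, Finset.sum_singleton]
  · simp [edgeC, huv, huw, hvw, add_assoc]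
  · simp only [Finset.mem_singleton, Sym2.eq_iff]
    rintro (⟨h1, h2⟩ | ⟨h1, h2⟩)
    · exact huv h1
    · exact huw h1
  · simp only [Finset.mem_insert, Finset.mem_singleton, Sym2.eq_iff]
    rintro ((⟨h1, h2⟩ | ⟨h1, h2⟩) | (⟨h1, h2⟩ | ⟨h1, h2⟩))
    · exact hvw h2
    · exact huw h1
    · exact huv h1
    · exact huw h1

theorem GT_tri {V : Type} [Fintype V] [DecidableEq V] (S : ClosedSurface V) (u v w : V)
    (h : ∃ s ∈ S.faces, u ∈ s ∧ v ∈ s ∧ w ∈ s) :
    edgeC u v + edgeC u w + edgeC v w ∈ simpB S Set.univ := by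
  obtain ⟨s, hs, hu, hv, hw⟩ := h
  by_cases huv : u = v
  · subst huv
    rw [GT_edge_self, zero_add, GT_two]
    exact Submodule.zero_mem _
  by_cases huw : u = w
  · subst huw
    rw [GT_edge_self, add_zero, GT_edge_comm v u, GT_two]
    exact Submodule.zero_mem _
  by_cases hvw : v = w
  · subst hvw
    rw [GT_edge_self, add_zero, GT_two]
    exact Submodule.zero_mem _
  rw [← GT_eps u v w huv huw hvw]
  have hsub : ({u, v, w} : Finset V) ⊆ s := by
    intro x hx
    simp only [Finset.mem_insert, Finset.mem_singleton] at hx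
    rcases hx with rfl | rfl | rfl <;> assumption
  have hcard : ({u, v, w} : Finset V).card = 3 := Finset.card_eq_three.2 ⟨u, v, w, huv, huw, hvw, rfl⟩
  have heq : ({u, v, w} : Finset V) = s :=
    Finset.eq_of_subset_of_card_le hsub (by rw [hcard, S.card_eq s hs])
  rw [heq]
  exact Submodule.subset_span ⟨s, hs, fun v _ => Set.mem_univ v, rfl⟩

/-- the grid points of the standard simplex -/
noncomputable def GT_pt (n : ℕ) (P : ℕ × ℕ) : D2 :=
  if h : 0 < n ∧ P.1 + P.2 ≤ n then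
    ⟨![((n : ℝ) - P.1 - P.2) / n, (P.1 : ℝ) / n, (P.2 : ℝ) / n], by
      have hn : (0 : ℝ) < n := by exact_mod_cast h.1
      have h2 : ((P.1 : ℝ) + P.2) ≤ n := by exact_mod_cast h.2
      constructor
      · intro k
        fin_cases k
        · exact div_nonneg (by linarith) hn.le
        · exact div_nonneg (by positivity) hn.le
        · exact div_nonneg (by positivity) hn.le
      · simp only [Fin.sum_univ_three, Matrix.cons_val_zero, Matrix.cons_val_one,
          Matrix.cons_val]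
        field_simp
        ring⟩
  else edgeMap 0 1 0

theorem GT_pt_val (n : ℕ) (hn : 0 < n) (i j : ℕ) (h : i + j ≤ n) :
    (GT_pt n (i, j)).1 = ![((n : ℝ) - i - j) / n, (i : ℝ) / n, (j : ℝ) / n] := by
  unfold GT_pt
  rw [dif_pos ⟨hn, h⟩]

theorem GT_pt_coe (n : ℕ) (hn : 0 < n) (i j : ℕ) (h : i + j ≤ n) :
    (GT_pt n (i, j) : Fin 3 → ℝ) = ![((n : ℝ) - i - j) / n, (i : ℝ) / n, (j : ℝ) / n] :=
  GT_pt_val n hn i j h

theorem GT_close (n : ℕ) (hn : 0 < n) (i j i' j' : ℕ) (h : i + j ≤ n) (h' : i' + j' ≤ n)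
    (hi : |(i : ℝ) - i'| ≤ 1) (hj : |(j : ℝ) - j'| ≤ 1) (hij : |((i : ℝ) + j) - (i' + j')| ≤ 1) :
    ∀ k, |(GT_pt n (i, j) : Fin 3 → ℝ) k - (GT_pt n (i', j') : Fin 3 → ℝ) k| ≤ 1 / (n : ℝ) := by
  have hn' : (0 : ℝ) < n := by exact_mod_cast hn
  rw [GT_pt_coe n hn i j h, GT_pt_coe n hn i' j' h']
  intro k
  fin_cases k
  · show |((n : ℝ) - i - j) / n - ((n : ℝ) - i' - j') / n| ≤ 1 / n
    rw [← sub_div, abs_div, abs_of_pos hn']
    refine div_le_div_of_nonneg_right ?_ hn'.le
    rw [← abs_neg]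
    have e : -(((n : ℝ) - i - j) - ((n : ℝ) - i' - j')) = ((i : ℝ) + j) - (i' + j') := by ring
    rw [e]
    exact hij
  · show |(i : ℝ) / n - (i' : ℝ) / n| ≤ 1 / n
    rw [← sub_div, abs_div, abs_of_pos hn']
    exact div_le_div_of_nonneg_right hi hn'.le
  · show |(j : ℝ) / n - (j' : ℝ) / n| ≤ 1 / n
    rw [← sub_div, abs_div, abs_of_pos hn']
    exact div_le_div_of_nonneg_right hj hn'.le

theorem GT_grid_coe (n i : ℕ) (hn : 0 < n) (hi : i ≤ n) : ((gridPt n i : unitInterval) : ℝ)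
    = (i : ℝ) / n := by
  have hn' : (0 : ℝ) < n := by exact_mod_cast hn
  unfold gridPt
  rw [Set.projIcc_of_mem zero_le_one ⟨by positivity, by
    rw [div_le_one hn']
    exact_mod_cast hi⟩]

theorem GT_e01 (n i : ℕ) (hn : 0 < n) (hi : i ≤ n) :
    edgeMap 0 1 (gridPt n i) = GT_pt n (i, 0) := by
  have hn' : (n : ℝ) ≠ 0 := by exact_mod_cast hn.ne'
  apply Subtype.ext
  rw [GT_pt_val n hn i 0 (by simpa using hi)]
  funext k
  have h := GT_grid_coe n i hn hi
  show (1 - ((gridPt n i : unitInterval) : ℝ)) * (if k = 0 then (1 : ℝ) else 0)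
    + ((gridPt n i : unitInterval) : ℝ) * (if k = 1 then (1 : ℝ) else 0) = _
  rw [h]
  fin_cases k
  · simp
    field_simp
  · simp
  · simp

theorem GT_e02 (n i : ℕ) (hn : 0 < n) (hi : i ≤ n) :
    edgeMap 0 2 (gridPt n i) = GT_pt n (0, i) := by
  have hn' : (n : ℝ) ≠ 0 := by exact_mod_cast hn.ne'
  apply Subtype.ext
  rw [GT_pt_val n hn 0 i (by simpa using hi)]
  funext k
  have h := GT_grid_coe n i hn hi
  show (1 - ((gridPt n i : unitInterval) : ℝ)) * (if k = 0 then (1 : ℝ) else 0)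
    + ((gridPt n i : unitInterval) : ℝ) * (if k = 2 then (1 : ℝ) else 0) = _
  rw [h]
  fin_cases k
  · simp
    field_simp
  · simp
  · simp

theorem GT_e12 (n i : ℕ) (hn : 0 < n) (hi : i ≤ n) :
    edgeMap 1 2 (gridPt n i) = GT_pt n (n - i, i) := by
  have hn' : (n : ℝ) ≠ 0 := by exact_mod_cast hn.ne'
  apply Subtype.ext
  rw [GT_pt_val n hn (n - i) i (by omega)]
  funext k
  have h := GT_grid_coe n i hn hi
  show (1 - ((gridPt n i : unitInterval) : ℝ)) * (if k = 1 then (1 : ℝ) else 0)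
    + ((gridPt n i : unitInterval) : ℝ) * (if k = 2 then (1 : ℝ) else 0) = _
  rw [h, Nat.cast_sub hi]
  fin_cases k
  · simp
  · simp
    field_simp
  · simp

theorem GT (hGR : GR_stmt) : GT_stmt := by
  intro V _ _ S r τ n hn hsp hsm
  set E : ℕ × ℕ → ℕ × ℕ → (Sym2 V →₀ ZMod 2) :=
    fun P Q => edgeC (r (τ (GT_pt n P))) (r (τ (GT_pt n Q))) with hE
  have hid := hGR (Sym2 V →₀ ZMod 2) E GT_two n
  have h01 : approx r n (τ.comp (edgeMap 0 1)) = ∑ i ∈ Finset.range n, E (i, 0) (i + 1, 0) := by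
    unfold approx
    refine Finset.sum_congr rfl fun i hi => ?_
    have hi' := Finset.mem_range.1 hi
    simp only [ContinuousMap.comp_apply, hE]
    rw [GT_e01 n i hn hi'.le, GT_e01 n (i + 1) hn hi']
  have h02 : approx r n (τ.comp (edgeMap 0 2)) = ∑ i ∈ Finset.range n, E (0, i) (0, i + 1) := by
    unfold approx
    refine Finset.sum_congr rfl fun i hi => ?_
    have hi' := Finset.mem_range.1 hi
    simp only [ContinuousMap.comp_apply, hE]
    rw [GT_e02 n i hn hi'.le, GT_e02 n (i + 1) hn hi']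
  have h12 : approx r n (τ.comp (edgeMap 1 2))
      = ∑ j ∈ Finset.range n, E (n - j, j) (n - j - 1, j + 1) := by
    unfold approx
    refine Finset.sum_congr rfl fun i hi => ?_
    have hi' := Finset.mem_range.1 hi
    simp only [ContinuousMap.comp_apply, hE]
    rw [GT_e12 n i hn hi'.le, GT_e12 n (i + 1) hn hi', Nat.sub_sub]
  rw [h01, h02, h12, ← hid]
  -- small triangles
  have key : ∀ P Q R : ℕ × ℕ,
      (∀ k, |(GT_pt n P : Fin 3 → ℝ) k - (GT_pt n Q : Fin 3 → ℝ) k| ≤ 1 / (n : ℝ)) →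
      (∀ k, |(GT_pt n P : Fin 3 → ℝ) k - (GT_pt n R : Fin 3 → ℝ) k| ≤ 1 / (n : ℝ)) →
      E P Q + E P R + E Q R ∈ simpB S Set.univ := by
    intro P Q R hPQ hPR
    apply GT_tri
    obtain ⟨s, hs, hc⟩ := hsp (GT_pt n P)
    have hmem : ∀ v, 0 < τ (GT_pt n P) v → v ∈ s := by
      intro v hv
      by_contra hvs
      rw [hc.2.2 v hvs] at hv
      exact lt_irrefl _ hv
    refine ⟨s, hs, hmem _ (hsm _ _ ?_), hmem _ (hsm _ _ hPQ), hmem _ (hsm _ _ hPR)⟩
    intro k
    rw [sub_self, abs_zero]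
    positivity
  refine Submodule.add_mem _ ?_ ?_
  · refine Submodule.sum_mem _ fun i hi => Submodule.sum_mem _ fun j hj => ?_
    have hi' := Finset.mem_range.1 hi
    have hj' := Finset.mem_range.1 hj
    refine key (i, j) (i + 1, j) (i, j + 1) ?_ ?_
    · apply GT_close n hn <;> first | omega | (push_cast; norm_num)
    · apply GT_close n hn <;> first | omega | (push_cast; norm_num)
  · refine Submodule.sum_mem _ fun i hi => Submodule.sum_mem _ fun j hj => ?_
    have hi' := Finset.mem_range.1 hi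
    have hj' := Finset.mem_range.1 hj
    refine key (i + 1, j) (i, j + 1) (i + 1, j + 1) ?_ ?_
    · refine GT_close n hn _ _ _ _ (by omega) (by omega) ?_ ?_ ?_
      · push_cast; norm_num
      · push_cast; norm_num
      · push_cast
        rw [show (i : ℝ) + 1 + j - (i + (j + 1)) = 0 by ring]
        norm_num
    · refine GT_close n hn _ _ _ _ (by omega) (by omega) ?_ ?_ ?_
      · push_cast; norm_num
      · push_cast; norm_num
      · push_cast
        rw [show (i : ℝ) + 1 + j - (i + 1 + (j + 1)) = -1 by ring]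
        norm_num

end Pool.Agent.helper45.TF
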