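import Pool.Agent.helper45.TF.Defs2

/-!
Module LENP: edge lengths of a plane-symmetric octahedron.
-/

namespace Pool.Agent.helper45.TF

theorem LENP_alg (a1 a2 a3 b1 b2 b3 c1 c2 c3 x1 x2 x3 y1 y2 y3 w1 w2 w3 l m d1 d2 d3 : ℝ)
    (hx1 : x1 = a1 - l * d1) (hx2 : x2 = a2 - l * d2) (hx3 : x3 = a3 - l * d3)
    (hy1 : y1 = b1 - m * d1) (hy2 : y2 = b2 - m * d2) (hy3 : y3 = b3 - m * d3)
    (hA : d1 * (a1 + x1 - 2 * c1) + d2 * (a2 + x2 - 2 * c2) + d3 * (a3 + x3 - 2 * c3) = 0)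
    (hB : d1 * (b1 + y1 - 2 * c1) + d2 * (b2 + y2 - 2 * c2) + d3 * (b3 + y3 - 2 * c3) = 0)
    (hC : d1 * (w1 - c1) + d2 * (w2 - c2) + d3 * (w3 - c3) = 0) :
    ((x1 - y1) ^ 2 + (x2 - y2) ^ 2 + (x3 - y3) ^ 2
      = (a1 - b1) ^ 2 + (a2 - b2) ^ 2 + (a3 - b3) ^ 2) ∧
    ((x1 - w1) ^ 2 + (x2 - w2) ^ 2 + (x3 - w3) ^ 2
      = (a1 - w1) ^ 2 + (a2 - w2) ^ 2 + (a3 - w3) ^ 2) ∧
    ((y1 - w1) ^ 2 + (y2 - w2) ^ 2 + (y3 - w3) ^ 2
      = (b1 - w1) ^ 2 + (b2 - w2) ^ 2 + (b3 - w3) ^ 2) ∧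
    ((b1 - x1) ^ 2 + (b2 - x2) ^ 2 + (b3 - x3) ^ 2
      = (a1 - y1) ^ 2 + (a2 - y2) ^ 2 + (a3 - y3) ^ 2) ∧
    ((c1 - x1) ^ 2 + (c2 - x2) ^ 2 + (c3 - x3) ^ 2
      = (a1 - c1) ^ 2 + (a2 - c2) ^ 2 + (a3 - c3) ^ 2) ∧
    ((c1 - y1) ^ 2 + (c2 - y2) ^ 2 + (c3 - y3) ^ 2
      = (b1 - c1) ^ 2 + (b2 - c2) ^ 2 + (b3 - c3) ^ 2) := by
  subst hx1 hx2 hx3 hy1 hy2 hy3
  refine ⟨?_, ?_, ?_, ?_, ?_, ?_⟩
  · linear_combination (-(l - m)) * hA + (l - m) * hB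
  · linear_combination (-l) * hA + 2 * l * hC
  · linear_combination (-m) * hB + 2 * m * hC
  · linear_combination (-l) * hA + l * hB - m * hA + m * hB
  · linear_combination (-l) * hA
  · linear_combination (-m) * hB

theorem LENP_half (z : ℕ → ℝ) (a b c a' b' c' l d : ℕ) (h1 : z 107 = 1)
    (h : NineZero (blockP a b c a' b' c' l d) z) :
    sqd z a' b' = sqd z a b ∧ sqd z a' c' = sqd z a c' ∧ sqd z b' c' = sqd z b c' ∧
    sqd z b a' = sqd z a b' ∧ sqd z c a' = sqd z a c ∧ sqd z c b' = sqd z b c := by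
  simp only [NineZero, blockP, List.take, List.mem_cons, forall_eq_or_imp, qPar, qMid, qPerp,
    evQ, List.map, List.sum_cons, List.sum_nil, h1, List.mem_nil_iff, false_imp_iff,
    implies_true, and_true] at h
  obtain ⟨e1, e2, e3, e4, e5, e6, e7, e8, e9⟩ := h
  push_cast at e1 e2 e3 e4 e5 e6 e7 e8 e9
  exact LENP_alg (z a) (z (a + 1)) (z (a + 2)) (z b) (z (b + 1)) (z (b + 2))
    (z c) (z (c + 1)) (z (c + 2)) (z a') (z (a' + 1)) (z (a' + 2))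
    (z b') (z (b' + 1)) (z (b' + 2)) (z c') (z (c' + 1)) (z (c' + 2))
    (z l) (z (l + 1)) (z d) (z (d + 1)) (z (d + 2))
    (by linear_combination e1) (by linear_combination e2) (by linear_combination e3)
    (by linear_combination e4) (by linear_combination e5) (by linear_combination e6)
    (by linear_combination e7) (by linear_combination e8) (by linear_combination e9)

theorem LENP_len (z : ℕ → ℝ) (a b : ℕ) : evQ (qLen a b) z = sqd z a b := by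
  simp only [evQ, qLen, sqd, List.map, List.sum_cons, List.sum_nil]
  push_cast
  ring

theorem LENP : LENP_stmt := by
  intro z w a b c a' b' c' l d hz hw hz9 hw9 hq hab hac hbc
  obtain ⟨z1, z2, z3, z4, z5, z6⟩ := LENP_half z a b c a' b' c' l d hz hz9
  obtain ⟨w1, w2, w3, w4, w5, w6⟩ := LENP_half w a b c a' b' c' l d hw hw9
  have q1 : sqd z a b' = sqd w a b' := by
    rw [← LENP_len, ← LENP_len]
    exact hq _ (by simp [blockP])
  have q2 : sqd z a c' = sqd w a c' := by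
    rw [← LENP_len, ← LENP_len]
    exact hq _ (by simp [blockP])
  have q3 : sqd z b c' = sqd w b c' := by
    rw [← LENP_len, ← LENP_len]
    exact hq _ (by simp [blockP])
  refine ⟨?_, ?_, ?_, q1, q2, ?_, q3, ?_, ?_⟩
  · rw [z1, w1, hab]
  · rw [z2, w2, q2]
  · rw [z3, w3, q3]
  · rw [z4, w4, q1]
  · rw [z5, w5, hac]
  · rw [z6, w6, hbc]

end Pool.Agent.helper45.TF
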